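import Mathlib

set_option autoImplicit false
set_option maxRecDepth 100000

/-!
# Two-pattern sets minimising consecutive avoidance counts: a counterexample with `k = 6`, `n = 11`
-/

namespace Pool.Agent.Results.MP_f2c072_co.SixEleven

open Equiv Finset

/-- The permutation `σ` of `n` letters contains the pattern `p` of length `k` consecutively at the
positions `i, ..., i + k - 1` (counted from 0): these letters are in the same relative order as
the entries of `p`. -/
def OccAt {n k : ℕ} (p : Perm (Fin k)) (σ : Perm (Fin n)) (i : ℕ) : Prop :=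
  ∃ h : i + k ≤ n, ∀ a b : Fin k,
    (σ ⟨i + a.val, by omega⟩ < σ ⟨i + b.val, by omega⟩ ↔ p a < p b)

/-- `σ` avoids every pattern of `B` consecutively. -/
def Avoids {n k : ℕ} (B : Finset (Perm (Fin k))) (σ : Perm (Fin n)) : Prop :=
  ∀ p ∈ B, ∀ i : ℕ, ¬ OccAt p σ i

/-- The number of permutations of `n` letters that avoid `B` consecutively. -/
noncomputable def alpha {k : ℕ} (B : Finset (Perm (Fin k))) (n : ℕ) : ℕ :=
  Nat.card {σ : Perm (Fin n) // Avoids B σ}

/-- The pattern `1 2 ⋯ (k-2) k (k-1)`: the last two entries are exchanged. -/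
def tau1 (k : ℕ) (hk : 3 ≤ k) : Perm (Fin k) :=
  swap ⟨k - 2, by omega⟩ ⟨k - 1, by omega⟩

/-- The pattern `1 2 ⋯ (k-3) (k-1) k (k-2)`. -/
def tau2 (k : ℕ) (hk : 3 ≤ k) : Perm (Fin k) :=
  swap ⟨k - 3, by omega⟩ ⟨k - 2, by omega⟩ * swap ⟨k - 2, by omega⟩ ⟨k - 1, by omega⟩

/-- The set `B_k`. -/
def Bk (k : ℕ) (hk : 3 ≤ k) : Finset (Perm (Fin k)) := {tau1 k hk, tau2 k hk}

/-! ### The three patterns of length 6 -/

/-- `123465`. -/
def t1 : Perm (Fin 6) := tau1 6 (by norm_num)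

/-- `123564`. -/
def t2 : Perm (Fin 6) := tau2 6 (by norm_num)

/-- `134265`. -/
def q : Perm (Fin 6) :=
  ⟨![0, 2, 3, 1, 5, 4], ![0, 3, 1, 2, 5, 4], by decide, by decide⟩

lemma t1_line : (⇑t1 : Fin 6 → Fin 6) = ![0, 1, 2, 3, 5, 4] := by decide

lemma t2_line : (⇑t2 : Fin 6 → Fin 6) = ![0, 1, 2, 4, 5, 3] := by decide

/-- The window starting at `i`. -/
def w (i : Fin 6) : Fin 6 ↪ Fin 11 :=
  ⟨fun a => ⟨i.val + a.val, by omega⟩, fun a b h => by
    have := congrArg Fin.val h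
    simp only at this
    exact Fin.ext (by omega)⟩

/-- Occurrence at the window `i`. -/
def occ (p : Perm (Fin 6)) (σ : Perm (Fin 11)) (i : Fin 6) : Prop :=
  ∀ a b : Fin 6, σ (w i a) < σ (w i b) ↔ p a < p b

lemma occAt_iff (p : Perm (Fin 6)) (σ : Perm (Fin 11)) (i : ℕ) :
    OccAt p σ i ↔ ∃ h : i < 6, occ p σ ⟨i, h⟩ := by
  constructor
  · rintro ⟨h, hp⟩
    exact ⟨by omega, hp⟩
  · rintro ⟨h, hp⟩
    exact ⟨by omega, hp⟩

/-- The patterns of `B` never overlap in at least two letters. -/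
def NonOver (B : Finset (Perm (Fin 6))) : Prop :=
  (∀ x ∈ B, ∀ y ∈ B, x ≠ y → ∃ a b : Fin 6, x a < x b ∧ ¬ y a < y b) ∧
  ∀ x ∈ B, ∀ y ∈ B, ∀ i j : Fin 6, i < j → j.val < i.val + 5 →
    ∃ a b c d : Fin 6, w i a = w j c ∧ w i b = w j d ∧ x a < x b ∧ ¬ y c < y d

set_option synthInstance.maxSize 100000 in
set_option synthInstance.maxHeartbeats 400000 in
lemma nonOver1 : NonOver {t1, t2} := by unfold NonOver; decide +kernel

set_option synthInstance.maxSize 100000 in
set_option synthInstance.maxHeartbeats 400000 in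
lemma nonOver2 : NonOver {t1, q} := by unfold NonOver; decide +kernel

open Classical in
/-- The number of permutations of 11 letters containing `x` at the first and `y` at the last
window. -/
noncomputable def P (x y : Perm (Fin 6)) : ℕ :=
  (univ.filter (fun σ : Perm (Fin 11) => occ x σ 0 ∧ occ y σ 5)).card

open Classical in
/-- The number of permutations of 11 letters containing `x` at the window `i`. -/
noncomputable def N (x : Perm (Fin 6)) (i : Fin 6) : ℕ :=
  (univ.filter (fun σ : Perm (Fin 11) => occ x σ i)).card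

open Classical in
/-- The number of permutations of 11 letters containing a pattern of `B`. -/
noncomputable def X (B : Finset (Perm (Fin 6))) : ℕ :=
  (univ.filter (fun σ : Perm (Fin 11) => ¬ Avoids B σ)).card

open Classical in
/-- Double counting of the occurrences. -/
lemma count (B : Finset (Perm (Fin 6))) (hB : NonOver B) :
    X B + ∑ x ∈ B, ∑ y ∈ B, P x y = ∑ i : Fin 6, ∑ x ∈ B, N x i := by
  unfold X P N
  simp only [Finset.card_filter]
  -- exchange the sums
  have e1 : ∑ x ∈ B, ∑ y ∈ B, ∑ σ : Perm (Fin 11), (if occ x σ 0 ∧ occ y σ 5 then 1 else 0)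
      = ∑ σ : Perm (Fin 11), ∑ x ∈ B, ∑ y ∈ B, (if occ x σ 0 ∧ occ y σ 5 then 1 else 0) := by
    rw [Finset.sum_comm]
    have : ∀ y ∈ B, ∑ x ∈ B, ∑ σ : Perm (Fin 11), (if occ x σ 0 ∧ occ y σ 5 then 1 else 0)
        = ∑ σ : Perm (Fin 11), ∑ x ∈ B, (if occ x σ 0 ∧ occ y σ 5 then 1 else 0) :=
      fun y _ => Finset.sum_comm
    rw [Finset.sum_congr rfl this, Finset.sum_comm]
    apply Finset.sum_congr rfl
    intro σ _
    rw [Finset.sum_comm]
  have e2 : ∑ i : Fin 6, ∑ x ∈ B, ∑ σ : Perm (Fin 11), (if occ x σ i then 1 else 0)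
      = ∑ σ : Perm (Fin 11), ∑ i : Fin 6, ∑ x ∈ B, (if occ x σ i then 1 else 0) := by
    have : ∀ i ∈ (univ : Finset (Fin 6)), ∑ x ∈ B, ∑ σ : Perm (Fin 11),
        (if occ x σ i then 1 else 0)
        = ∑ σ : Perm (Fin 11), ∑ x ∈ B, (if occ x σ i then 1 else 0) :=
      fun i _ => Finset.sum_comm
    rw [Finset.sum_congr rfl this, Finset.sum_comm]
  rw [e1, e2, ← Finset.sum_add_distrib]
  apply Finset.sum_congr rfl
  intro σ _
  -- the pointwise identity
  let U : Fin 6 → Prop := fun i => ∃ x ∈ B, occ x σ i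
  have hU : ∀ i, ∑ x ∈ B, (if occ x σ i then 1 else 0) = if U i then 1 else 0 := by
    intro i
    by_cases h : U i
    · rw [if_pos h]
      obtain ⟨x, hx, hxo⟩ := h
      rw [Finset.sum_eq_single x]
      · rw [if_pos hxo]
      · intro y hy hne
        rw [if_neg]
        intro hyo
        obtain ⟨a, b, h1, h2⟩ := hB.1 x hx y hy (Ne.symm hne)
        exact h2 ((hyo a b).mp ((hxo a b).mpr h1))
      · exact fun h' => absurd hx h'
    · rw [if_neg h]
      apply Finset.sum_eq_zero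
      intro x hx
      rw [if_neg (fun h' => h ⟨x, hx, h'⟩)]
  have hUU : ∑ x ∈ B, ∑ y ∈ B, (if occ x σ 0 ∧ occ y σ 5 then 1 else 0)
      = (if U 0 then 1 else 0) * (if U 5 then 1 else 0) := by
    rw [← hU 0, ← hU 5, Finset.sum_mul_sum]
    apply Finset.sum_congr rfl
    intro x _
    apply Finset.sum_congr rfl
    intro y _
    by_cases h1 : occ x σ 0 <;> by_cases h2 : occ y σ 5 <;> simp [h1, h2]
  have hX : (¬ Avoids B σ) ↔ ∃ i, U i := by
    unfold Avoids
    push Not
    constructor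
    · rintro ⟨p, hp, i, hi⟩
      obtain ⟨h, ho⟩ := (occAt_iff p σ i).mp hi
      exact ⟨⟨i, h⟩, p, hp, ho⟩
    · rintro ⟨i, p, hp, ho⟩
      exact ⟨p, hp, i.val, (occAt_iff p σ i.val).mpr ⟨i.isLt, ho⟩⟩
  have hno : ∀ i j : Fin 6, i < j → j.val < i.val + 5 → ¬ (U i ∧ U j) := by
    rintro i j hij hj ⟨⟨x, hx, hxo⟩, ⟨y, hy, hyo⟩⟩
    obtain ⟨a, b, c, d, h1, h2, h3, h4⟩ := hB.2 x hx y hy i j hij hj
    apply h4
    rw [← hyo c d, ← h1, ← h2]
    exact (hxo a b).mpr h3
  simp only [hU]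
  rw [hUU]
  have h01 := hno 0 1 (by decide) (by decide)
  have h02 := hno 0 2 (by decide) (by decide)
  have h03 := hno 0 3 (by decide) (by decide)
  have h04 := hno 0 4 (by decide) (by decide)
  have h12 := hno 1 2 (by decide) (by decide)
  have h13 := hno 1 3 (by decide) (by decide)
  have h14 := hno 1 4 (by decide) (by decide)
  have h15 := hno 1 5 (by decide) (by decide)
  have h23 := hno 2 3 (by decide) (by decide)
  have h24 := hno 2 4 (by decide) (by decide)
  have h25 := hno 2 5 (by decide) (by decide)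
  have h34 := hno 3 4 (by decide) (by decide)
  have h35 := hno 3 5 (by decide) (by decide)
  have h45 := hno 4 5 (by decide) (by decide)
  have hex : (∃ i, U i) ↔ (U 0 ∨ U 1 ∨ U 2 ∨ U 3 ∨ U 4 ∨ U 5) := by
    constructor
    · rintro ⟨i, hi⟩
      fin_cases i
      · exact Or.inl hi
      · exact Or.inr (Or.inl hi)
      · exact Or.inr (Or.inr (Or.inl hi))
      · exact Or.inr (Or.inr (Or.inr (Or.inl hi)))
      · exact Or.inr (Or.inr (Or.inr (Or.inr (Or.inl hi))))
      · exact Or.inr (Or.inr (Or.inr (Or.inr (Or.inr hi))))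
    · rintro (h | h | h | h | h | h)
      exacts [⟨_, h⟩, ⟨_, h⟩, ⟨_, h⟩, ⟨_, h⟩, ⟨_, h⟩, ⟨_, h⟩]
  have hX2 : (¬ Avoids B σ) ↔ (U 0 ∨ U 1 ∨ U 2 ∨ U 3 ∨ U 4 ∨ U 5) := hX.trans hex
  simp only [hX2]
  simp only [Fin.sum_univ_succ, Fin.sum_univ_zero]
  have r1 : (Fin.succ (0 : Fin 5)) = 1 := rfl
  have r2 : (Fin.succ (Fin.succ (0 : Fin 4))) = 2 := rfl
  have r3 : (Fin.succ (Fin.succ (Fin.succ (0 : Fin 3)))) = 3 := rfl
  have r4 : (Fin.succ (Fin.succ (Fin.succ (Fin.succ (0 : Fin 2))))) = 4 := rfl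
  have r5 : (Fin.succ (Fin.succ (Fin.succ (Fin.succ (Fin.succ (0 : Fin 1)))))) = 5 := rfl
  rw [r1, r2, r3, r4, r5]
  by_cases u0 : U 0
  · have n1 : ¬ U 1 := fun h => h01 ⟨u0, h⟩
    have n2 : ¬ U 2 := fun h => h02 ⟨u0, h⟩
    have n3 : ¬ U 3 := fun h => h03 ⟨u0, h⟩
    have n4 : ¬ U 4 := fun h => h04 ⟨u0, h⟩
    by_cases u5 : U 5 <;> simp [u0, n1, n2, n3, n4, u5]
  · by_cases u1 : U 1
    · have n2 : ¬ U 2 := fun h => h12 ⟨u1, h⟩
      have n3 : ¬ U 3 := fun h => h13 ⟨u1, h⟩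
      have n4 : ¬ U 4 := fun h => h14 ⟨u1, h⟩
      have n5 : ¬ U 5 := fun h => h15 ⟨u1, h⟩
      simp [u0, u1, n2, n3, n4, n5]
    · by_cases u2 : U 2
      · have n3 : ¬ U 3 := fun h => h23 ⟨u2, h⟩
        have n4 : ¬ U 4 := fun h => h24 ⟨u2, h⟩
        have n5 : ¬ U 5 := fun h => h25 ⟨u2, h⟩
        simp [u0, u1, u2, n3, n4, n5]
      · by_cases u3 : U 3
        · have n4 : ¬ U 4 := fun h => h34 ⟨u3, h⟩
          have n5 : ¬ U 5 := fun h => h35 ⟨u3, h⟩
          simp [u0, u1, u2, u3, n4, n5]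
        · by_cases u4 : U 4
          · have n5 : ¬ U 5 := fun h => h45 ⟨u4, h⟩
            simp [u0, u1, u2, u3, u4, n5]
          · by_cases u5 : U 5 <;> simp [u0, u1, u2, u3, u4, u5]

/-- Transport of occurrences along a permutation of the positions of a window. -/
lemma occ_mul (x y : Perm (Fin 6)) (i : Fin 6) (σ : Perm (Fin 11)) (G : Perm (Fin 11))
    (hG : ∀ a, G (w i a) = w i ((x⁻¹ * y) a)) :
    occ x σ i ↔ occ y (σ * G) i := by
  unfold occ
  simp only [Perm.mul_apply, hG]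
  constructor
  · intro h a b
    rw [h]
    simp
  · intro h a b
    have := h (y⁻¹ (x a)) (y⁻¹ (x b))
    simpa using this

lemma card_occ (x y : Perm (Fin 6)) (i : Fin 6) : N x i = N y i := by
  classical
  unfold N
  let G : Perm (Fin 11) := (x⁻¹ * y).viaFintypeEmbedding (w i)
  apply Finset.card_equiv (Equiv.mulRight G)
  intro σ
  simp only [Finset.mem_filter, Finset.mem_univ, true_and, Equiv.coe_mulRight]
  exact occ_mul x y i σ G (fun a => Equiv.Perm.viaFintypeEmbedding_apply_image _ _ _)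

lemma P_right (x y y' : Perm (Fin 6)) (h : y 0 = y' 0) : P x y = P x y' := by
  classical
  let G : Perm (Fin 11) := (y⁻¹ * y').viaFintypeEmbedding (w 5)
  have hG : ∀ a, G (w 5 a) = w 5 ((y⁻¹ * y') a) :=
    fun a => Equiv.Perm.viaFintypeEmbedding_apply_image _ _ _
  have hG0 : ∀ a, G (w 0 a) = w 0 a := by
    intro a
    by_cases ha : a = 5
    · subst ha
      have e : w 0 5 = w 5 0 := by decide
      rw [e, hG]
      congr 1
      rw [Perm.mul_apply, ← h]
      simp
    · apply Equiv.Perm.viaFintypeEmbedding_apply_notMem_range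
      rintro ⟨b, hb⟩
      have := congrArg Fin.val hb
      simp only [w, Function.Embedding.coeFn_mk] at this
      apply ha
      apply Fin.ext
      have ha' := a.isLt
      simp at this ⊢
      omega
  unfold P
  apply Finset.card_equiv (Equiv.mulRight G)
  intro σ
  simp only [Finset.mem_filter, Finset.mem_univ, true_and, Equiv.coe_mulRight]
  refine and_congr ?_ (occ_mul y y' 5 σ G hG)
  unfold occ
  simp only [Perm.mul_apply, hG0]

lemma P_left (x x' y : Perm (Fin 6)) (h : x 5 = x' 5) : P x y = P x' y := by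
  classical
  let G : Perm (Fin 11) := (x⁻¹ * x').viaFintypeEmbedding (w 0)
  have hG : ∀ a, G (w 0 a) = w 0 ((x⁻¹ * x') a) :=
    fun a => Equiv.Perm.viaFintypeEmbedding_apply_image _ _ _
  have hG0 : ∀ a, G (w 5 a) = w 5 a := by
    intro a
    by_cases ha : a = 0
    · subst ha
      have e : w 5 0 = w 0 5 := by decide
      rw [e, hG]
      congr 1
      rw [Perm.mul_apply, ← h]
      simp
    · apply Equiv.Perm.viaFintypeEmbedding_apply_notMem_range
      rintro ⟨b, hb⟩
      have := congrArg Fin.val hb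
      simp only [w, Function.Embedding.coeFn_mk] at this
      apply ha
      apply Fin.ext
      have hb' := b.isLt
      simp at this ⊢
      omega
  unfold P
  apply Finset.card_equiv (Equiv.mulRight G)
  intro σ
  simp only [Finset.mem_filter, Finset.mem_univ, true_and, Equiv.coe_mulRight]
  refine and_congr (occ_mul x x' 0 σ G hG) ?_
  unfold occ
  simp only [Perm.mul_apply, hG0]

/-- A permutation with `123564` at the first and `123465` at the last window. -/
def σ₀ : Perm (Fin 11) :=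
  ⟨![0, 1, 2, 9, 10, 3, 4, 5, 6, 8, 7], ![0, 1, 2, 5, 6, 7, 8, 10, 9, 3, 4], by decide, by decide⟩

/-- Exchange of the positions 3 and 5. -/
def g : Perm (Fin 11) := swap 3 5

lemma g_inv : g * g = 1 := by
  unfold g
  exact Equiv.swap_mul_self _ _

lemma g50 : g (w 5 0) = 3 := by decide

lemma g5 : ∀ b : Fin 6, b ≠ 0 → g (w 5 b) = w 5 b := by decide

lemma g0 : ∀ a : Fin 6, g (w 0 a) = w 0 ((t1⁻¹ * t2) a) := by decide

lemma t1_zero : ∀ b : Fin 6, b ≠ 0 → t1 0 < t1 b := by decide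

lemma w50 : w 5 0 = 5 := by decide

lemma w03 : w 0 3 = 3 := by decide

lemma w05 : w 0 5 = 5 := by decide

lemma t1_35 : t1 3 < t1 5 := by decide

lemma swap_mem (σ : Perm (Fin 11)) (h0 : occ t1 σ 0) (h5 : occ t1 σ 5) :
    occ t2 (σ * g) 0 ∧ occ t1 (σ * g) 5 := by
  refine ⟨(occ_mul t1 t2 0 σ g g0).mp h0, ?_⟩
  have k3 : σ 3 < σ 5 := by
    have := (h0 3 5).mpr t1_35
    rwa [w03, w05] at this
  have k5 : ∀ b : Fin 6, b ≠ 0 → σ 5 < σ (w 5 b) := fun b hb => by
    have := (h5 0 b).mpr (t1_zero b hb)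
    rwa [w50] at this
  intro a b
  rw [Perm.mul_apply, Perm.mul_apply]
  by_cases ha : a = 0
  · by_cases hb : b = 0
    · subst ha
      subst hb
      exact ⟨fun h => absurd h (lt_irrefl _), fun h => absurd h (lt_irrefl _)⟩
    · subst ha
      rw [g50, g5 b hb]
      exact ⟨fun _ => t1_zero b hb, fun _ => k3.trans (k5 b hb)⟩
  · by_cases hb : b = 0
    · subst hb
      rw [g50, g5 a ha]
      exact ⟨fun h => absurd h (not_lt.mpr (k3.trans (k5 a ha)).le),
        fun h => absurd h (not_lt.mpr (t1_zero a ha).le)⟩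
    · rw [g5 a ha, g5 b hb]
      exact h5 a b

lemma σ₀_0 : occ t2 σ₀ 0 := by unfold occ; decide

lemma σ₀_5 : occ t1 σ₀ 5 := by unfold occ; decide

lemma σ₀_not : ¬ occ t1 (σ₀ * g) 5 := by
  intro h
  have h1 := (h 0 1).mpr (by decide)
  exact absurd h1 (by decide)

lemma P_lt : P t1 t1 < P t2 t1 := by
  classical
  unfold P
  rw [← Finset.card_image_of_injective (univ.filter (fun σ : Perm (Fin 11) =>
    occ t1 σ 0 ∧ occ t1 σ 5)) (mul_left_injective g)]
  apply Finset.card_lt_card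
  rw [Finset.ssubset_iff_subset_ne]
  constructor
  · intro τ hτ
    obtain ⟨σ, hσ, rfl⟩ := Finset.mem_image.mp hτ
    obtain ⟨h0, h5⟩ := (Finset.mem_filter.mp hσ).2
    exact Finset.mem_filter.mpr ⟨Finset.mem_univ _, swap_mem σ h0 h5⟩
  · intro heq
    have hmem : σ₀ ∈ univ.filter (fun σ : Perm (Fin 11) => occ t2 σ 0 ∧ occ t1 σ 5) :=
      Finset.mem_filter.mpr ⟨Finset.mem_univ _, σ₀_0, σ₀_5⟩
    rw [← heq] at hmem
    obtain ⟨σ, hσ, hσ'⟩ := Finset.mem_image.mp hmem
    have hσ2 : σ * g = σ₀ := hσ'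
    have : σ = σ₀ * g := by
      rw [← hσ2, mul_assoc, g_inv, mul_one]
    have h := (Finset.mem_filter.mp hσ).2.2
    rw [this] at h
    exact σ₀_not h

lemma alpha_add (B : Finset (Perm (Fin 6))) :
    alpha B 11 + X B = Fintype.card (Perm (Fin 11)) := by
  classical
  unfold alpha X
  rw [Nat.card_eq_fintype_card, Fintype.card_subtype, Finset.card_filter_add_card_filter_not]
  rfl

lemma main_lt : alpha {t1, q} 11 < alpha {t1, t2} 11 := by
  have c1 := count {t1, t2} nonOver1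
  have c2 := count {t1, q} nonOver2
  have a1 := alpha_add {t1, t2}
  have a2 := alpha_add {t1, q}
  have n1 : t1 ≠ t2 := by decide
  have n2 : t1 ≠ q := by decide
  simp only [Finset.sum_pair n1, Finset.sum_pair n2] at c1 c2
  have s2 : ∑ i : Fin 6, (N t1 i + N t2 i) = ∑ i : Fin 6, (N t1 i + N q i) :=
    Finset.sum_congr rfl (fun i _ => by rw [card_occ t2 q i])
  have p1 : P t1 t2 = P t1 t1 := P_right _ _ _ (by decide)
  have p2 : P t2 t2 = P t2 t1 := P_right _ _ _ (by decide)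
  have p3 : P t1 q = P t1 t1 := P_right _ _ _ (by decide)
  have p4 : P q t1 = P t1 t1 := P_left _ _ _ (by decide)
  have p5 : P q q = P t1 t1 := (P_left _ _ _ (by decide)).trans p3
  have hlt := P_lt
  rw [p1, p2] at c1
  rw [p3, p4, p5] at c2
  omega

/-- Q1 fails: for `k = 6`, `n = 11` and `B' = {123465, 134265}` fewer permutations avoid `B'`
than `B_6 = {123465, 123564}`. -/
theorem result :
    (∃ B' : Finset (Perm (Fin 6)), B'.card = 2 ∧ alpha B' 11 < alpha (Bk 6 (by norm_num)) 11) ∧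
    ¬ ∀ (k : ℕ) (hk : 3 ≤ k) (B' : Finset (Perm (Fin k))), B'.card = 2 →
      ∀ n : ℕ, 1 ≤ n → alpha (Bk k hk) n ≤ alpha B' n := by
  have h2 : ({t1, q} : Finset (Perm (Fin 6))).card = 2 := by decide
  refine ⟨⟨{t1, q}, h2, main_lt⟩, fun h => ?_⟩
  exact absurd main_lt (not_lt.mpr (h 6 (by norm_num) {t1, q} h2 11 (by norm_num)))

end Pool.Agent.Results.MP_f2c072_co.SixEleven
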